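import Pool.Agent.H77.KG.Targets

/-!
# Definable objects in an extension (row EXB of the board kgr)
-/

set_option autoImplicit false

open Set Pool.Agent.H77.BC Pool.Agent.H77.BD Pool.Agent.H77.KG

namespace Pool.Agent.H17.KGR

theorem same_D {M M' : Type} {U : RU M} {U' : RU M'} {α : Type} {c : Cod M α} {c' : Cod M' α}
    (h : @Same M M' U U' α c c') (X : Set α) (hX : U.D X) : @RU.D M' U' α c' X := (h.D X).2 hX

theorem pf_EXB (hEXA : T_EXA) : T_EXB := by
  intro M M' U U' e h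
  have hful : ∀ {α : Type} [Cod M α] [Ful U α], @Ful M' U' α (codE h.inj) := by
    intro α _ _
    exact @Ful.mk M' U' α (codE h.inj)
      (same_D (hEXA U U' e h (α := α) (β := α) (γ := α)).1 univ Ful.full)
  refine ⟨hful, ?_, ?_, ?_, ?_⟩
  · intro α β _ _ f hf
    exact same_D (hEXA U U' e h (α := α) (β := β) (γ := β)).2.1 {p : α × β | p.2 = f p.1} hf
  · intro Γ _ _ hG
    have h1 : U.D {p : (Γ × Γ) × Γ | p.2 = p.1.1 * p.1.2} := hG.mul
    have h2 := same_D (hEXA U U' e h (α := Γ) (β := Γ) (γ := Γ)).2.2.1 _ h1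
    exact @DG.mk M' U' Γ _ (codE h.inj) hful h2
  · intro V _ _ hV
    have h1 : U.D {p : (V × V) × V | p.2 = p.1.1 + p.1.2} := hV.add
    have h2 := same_D (hEXA U U' e h (α := V) (β := V) (γ := V)).2.2.1 _ h1
    exact @DAb.mk M' U' V _ (codE h.inj) hful h2
  · intro G S _ _ _ _ hGS
    have h1 : U.D {p : (G × S) × S | p.2 = p.1.1 • p.1.2} := hGS.act
    have h2 := same_D (hEXA U U' e h (α := G) (β := S) (γ := S)).2.2.1 _ h1
    exact @DA.mk M' U' G S _ _ (codE h.inj) (codE h.inj) h2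

end Pool.Agent.H17.KGR
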