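import Pool.Agent.H77.KG.Targets

/-!
# The class of the groups of type A, D, E (row GSA of the board kgr)
-/

set_option autoImplicit false

open Set Pool.Agent.H77.BC Pool.Agent.H77.BD Pool.Agent.H77.KG

namespace Pool.Agent.H17.KGR

/-- both properties of the groups in `SA` -/
theorem sa_prop (hSMA : T_SMA) (hSIM : T_SIM) (L : Type) (iL : Group L) (h : SA L iL) :
    IsSimpleGroup L ∧ ∃ a b : L, a * b ≠ b * a := by
  have key : ∀ (P : Type) (_ : Group P), IsSimpleGroup P ∧ (∃ a b : P, a * b ≠ b * a) →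
      Nonempty (L ≃* P) → IsSimpleGroup L ∧ ∃ a b : L, a * b ≠ b * a := by
    rintro P iP ⟨hs, a, b, hab⟩ ⟨e⟩
    refine ⟨(e.isSimpleGroup_congr).2 hs, e.symm a, e.symm b, fun h => hab ?_⟩
    rw [← map_mul, ← map_mul] at h
    exact e.symm.injective h
  obtain ⟨F, iF, iA, h⟩ := h
  rcases h with ⟨m, hm, he⟩ | ⟨l, C, hC, hB, he⟩
  · exact key _ _ (hSMA m hm) he
  · have hl : 2 ≤ l := by
      obtain ⟨b, i, j, m, hij, -, -, -⟩ := hB
      by_contra hl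
      have hi := i.2
      have hj := j.2
      exact hij (Fin.ext (by omega))
    have hinf : Infinite F := IsAlgClosed.instInfinite
    obtain ⟨x, τ, hcd⟩ := Pool.Agent.H77.BDS.a_CDC hC hl (F := F)
    exact key _ _ (hSIM hC hl hcd) he

theorem pf_GSA (hSMA : T_SMA) (hPLB : T_PLB) (hDLB : T_DLB) (hSIM : T_SIM) : T_GSA := by
  refine ⟨?_, fun L iL h => (sa_prop hSMA hSIM L iL h).1,
    fun L iL h => (sa_prop hSMA hSIM L iL h).2, ?_⟩
  · rintro L L' iL iL' ⟨e⟩ ⟨F, iF, iA, h⟩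
    refine ⟨F, iF, iA, ?_⟩
    rcases h with ⟨m, hm, ⟨f⟩⟩ | ⟨l, C, hC, hB, ⟨f⟩⟩
    · exact Or.inl ⟨m, hm, ⟨e.symm.trans f⟩⟩
    · exact Or.inr ⟨l, C, hC, hB, ⟨e.symm.trans f⟩⟩
  · rintro L iL ⟨F, iF, iA, h⟩ M U iC iD
    rcases h with ⟨m, hm, he⟩ | ⟨l, C, hC, hB, he⟩
    · obtain ⟨m, rfl⟩ := Nat.exists_eq_add_of_le' hm
      exact hPLB U m he
    · exact hDLB U hC hB he

end Pool.Agent.H17.KGR
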