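import Pool.Agent.H77.KG.Targets

/-!
# Quotients and generic transitivity (row GTQ of the board kgr)
-/

set_option autoImplicit false

open Set Pool.Agent.H77.BC Pool.Agent.H77.BD Pool.Agent.H77.KG

namespace Pool.Agent.H17.KGR

theorem pf_GTQ (hPWR : T_PWR) : T_GTQ := by
  intro M U G S G' S' _ _ _ _ _ _ _ _ _ _ _ _ _ _ p q hq hqs heqv hr μ hGT
  obtain ⟨r, hr⟩ := hr
  obtain ⟨s, hs⟩ := hGT
  refine ⟨fun i => q (s i), fun hne => ?_⟩
  set B' : Set (Fin μ → S') := {x | ¬ ∃ g : G', ∀ i, x i = g • q (s i)} with hB'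
  set B : Set (Fin μ → S) := {x | ¬ ∃ g : G, ∀ i, x i = g • s i} with hB
  have hDB' : U.D B' := D_bad (fun i => q (s i))
  have hDB : U.D B := D_bad s
  let Q : (Fin μ → S) → (Fin μ → S') := fun x i => q (x i)
  have hQ : DFn U Q := by
    unfold DFn
    have e : {z : (Fin μ → S) × (Fin μ → S') | z.2 = Q z.1} =
        {z | ∀ i : Fin μ, z.2 i = q (z.1 i)} := by
      ext z
      exact funext_iff
    rw [e]
    exact D_forall_fin fun i => D_eqf (DFn_comp (DFn_apply i) DFn_snd)
      (DFn_comp hq (DFn_comp (DFn_apply i) DFn_fst))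
  have hQs : Function.Surjective Q := by
    intro y
    choose x hx using fun i => hqs (y i)
    exact ⟨x, funext hx⟩
  -- the fibres
  have hfib : ∀ y : Fin μ → S', U.R {a : Fin μ → S | Q a = y} = μ * r := by
    intro y
    have e : {a : Fin μ → S | Q a = y} = {a : Fin μ → S | ∀ i, a i ∈ {x : S | q x = y i}} := by
      ext a
      exact funext_iff
    rw [e, (hPWR U μ (fun i => {x : S | q x = y i})
      (fun i => D_eqf hq (DFn_const _)) (fun i => hqs (y i))).2]
    simp only [hr]
    rw [Finset.sum_const, Finset.card_univ, Fintype.card_fin, smul_eq_mul]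
  set X : Set (Fin μ → S) := {x | Q x ∈ B'} with hX
  have hDX : U.D X := DFn_preim hQ hDB'
  have hXB : X ⊆ B := by
    rintro x hx ⟨g, hg⟩
    exact hx ⟨p g, fun i => by
      change q (x i) = _
      rw [hg i, heqv]⟩
  obtain ⟨y, hy⟩ := hne
  obtain ⟨x, rfl⟩ := hQs y
  have hXne : X.Nonempty := ⟨x, hy⟩
  have hBne : B.Nonempty := ⟨x, hXB hy⟩
  have h1 : U.R X = U.R B' + μ * r := by
    have himg : Q '' X = B' := by
      ext z
      constructor
      · rintro ⟨a, ha, rfl⟩
        exact ha
      · intro hz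
        obtain ⟨a, rfl⟩ := hQs z
        exact ⟨a, hz, rfl⟩
    have h := (Pool.Agent.H77.BCP.a_RKB U).fib_eq (X := X) (f := Q) (n := μ * r) hDX hQ hXne
      (by
        intro b hb
        rw [himg] at hb
        rw [← hfib b]
        congr 1
        ext a
        constructor
        · exact fun h => h.2
        · intro h
          have h' : Q a = b := h
          exact ⟨by change Q a ∈ B'; rw [h']; exact hb, h⟩)
    rw [himg] at h
    exact h
  have h2 : U.R (univ : Set (Fin μ → S)) = U.R (univ : Set (Fin μ → S')) + μ * r := by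
    have himg : Q '' univ = univ := by
      rw [image_univ]
      exact hQs.range_eq
    have h := (Pool.Agent.H77.BCP.a_RKB U).fib_eq (X := (univ : Set (Fin μ → S))) (f := Q)
      (n := μ * r) Ful.full hQ ⟨x, mem_univ _⟩
      (by
        intro b _
        rw [← hfib b]
        congr 1
        ext a
        exact ⟨fun h => h.2, fun h => ⟨mem_univ _, h⟩⟩)
    rw [himg] at h
    exact h
  have h3 := (Pool.Agent.H77.BCP.a_RKA U).mono hDX hDB hXne hXB
  have h4 := hs hBne
  omega

end Pool.Agent.H17.KGR
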